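import Pool.Agent.X64.Dn.Geo

/-!
# MP_4dd93e_co, Q1: outerplanar graphs have bounded distance number

The vertices of an outerplanar graph are mapped to polynomials in `ℤ[X]` such that the difference
of two adjacent vertices is `± X ^ k` or `± X ^ k (X - 1)`. Then `X ^ k` is replaced by the complex
number `X_k = λ_k z ^ (E k)`, where `λ_k` is `1` for even `k` and `2` for odd `k`, `z` is a
transcendental number of modulus `1` and `E 0 < E 1 < ...` are integers with at most ten different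
consecutive gaps and without three-term arithmetic progressions. The gaps are given by an infinite
word over ten letters without abelian squares.
-/

namespace Pool.Agent.Results.MP_4dd93e_co.BoundedDistance

open Pool.Agent.X64.Ddn Pool.Agent.X64.Dn Polynomial

/-- The Euclidean plane. -/
abbrev Plane := EuclideanSpace ℝ (Fin 2)

/-- Outerplanar graphs in the standard combinatorial form: the vertices can be placed on a circle
(in the order given by `σ`) so that no two edges, drawn as chords, cross. -/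
def Outerplanar {V : Type} (G : SimpleGraph V) : Prop :=
  ∃ σ : V → ℕ, Function.Injective σ ∧
    ∀ a b c d : V, σ a < σ b → σ b < σ c → σ c < σ d → ¬ (G.Adj a c ∧ G.Adj b d)

/-- A drawing: the vertices are placed at distinct points, and no vertex lies in the relative
interior of an edge segment. -/
def IsDrawing {V : Type} (G : SimpleGraph V) (p : V → Plane) : Prop :=
  Function.Injective p ∧ ∀ u v w : V, G.Adj u v → p w ∉ openSegment ℝ (p u) (p v)

/-- The set of edge lengths of the drawing `p` of `G`. -/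
def edgeLengths {V : Type} (G : SimpleGraph V) (p : V → Plane) : Set ℝ :=
  {l | ∃ u v, G.Adj u v ∧ l = dist (p u) (p v)}

/-- The distance number: the least `k` such that some drawing of `G` has at most `k` edge
lengths. -/
noncomputable def dn {V : Type} (G : SimpleGraph V) : ℕ :=
  sInf {k : ℕ | ∃ p : V → Plane, IsDrawing G p ∧ (edgeLengths G p).encard ≤ k}

theorem exists_transcendental : ∃ z : ℂ, ‖z‖ = 1 ∧ Transcendental ℤ z := by
  by_contra hcon
  push Not at hcon
  have h1 : {z : ℂ | ‖z‖ = 1}.Countable := by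
    refine (Algebraic.countable ℤ ℂ).mono ?_
    intro z hz
    exact not_not.1 (hcon z hz)
  have h2 : (Complex.re '' {z : ℂ | ‖z‖ = 1}).Countable := h1.image _
  have h3 : Set.Icc (0 : ℝ) 1 ⊆ Complex.re '' {z : ℂ | ‖z‖ = 1} := by
    intro t ht
    refine ⟨⟨t, Real.sqrt (1 - t ^ 2)⟩, ?_, rfl⟩
    have h4 : 0 ≤ 1 - t ^ 2 := by nlinarith [ht.1, ht.2]
    show ‖(⟨t, Real.sqrt (1 - t ^ 2)⟩ : ℂ)‖ = 1
    rw [Complex.norm_def, Complex.normSq_mk, Real.mul_self_sqrt h4]
    rw [show t * t + (1 - t ^ 2) = 1 by ring, Real.sqrt_one]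
  have h5 := h2.mono h3
  rw [← Cardinal.le_aleph0_iff_set_countable, Cardinal.mk_Icc_real zero_lt_one] at h5
  exact absurd h5 (not_le.2 Cardinal.aleph0_lt_continuum)

/-- `1` for even and `2` for odd indices -/
def lam (k : ℕ) : ℤ := if k % 2 = 0 then 1 else 2

theorem lam_ne (k : ℕ) : lam k ≠ 0 := by
  unfold lam
  split_ifs <;> decide

theorem lam_sq (k : ℕ) : lam (k + 1) ^ 2 - lam k ^ 2 ≠ 0 := by
  unfold lam
  rcases Nat.mod_two_eq_zero_or_one k with h | h
  · rw [if_neg (by omega), if_pos h]; decide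
  · rw [if_pos (by omega), if_neg (by omega)]; decide

/-- the images of the powers of `X` -/
noncomputable def pt (z : ℂ) (B k : ℕ) : ℂ := (lam k : ℂ) * z ^ (E B k)

/-- the images of the polynomials -/
noncomputable def Φ (z : ℂ) (B N : ℕ) (Q : ℤ[X]) : ℂ :=
  ∑ k ∈ Finset.range N, (Q.coeff k : ℂ) * pt z B k

theorem Φ_sub (z : ℂ) (B N : ℕ) (P Q : ℤ[X]) : Φ z B N (P - Q) = Φ z B N P - Φ z B N Q := by
  unfold Φ
  rw [← Finset.sum_sub_distrib]
  refine Finset.sum_congr rfl fun k _ => ?_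
  rw [coeff_sub]
  push_cast
  ring

theorem Φ_neg (z : ℂ) (B N : ℕ) (Q : ℤ[X]) : Φ z B N (-Q) = -Φ z B N Q := by
  unfold Φ
  rw [← Finset.sum_neg_distrib]
  refine Finset.sum_congr rfl fun k _ => ?_
  rw [coeff_neg]
  push_cast
  ring

theorem Φ_pow (z : ℂ) (B N : ℕ) {k : ℕ} (hk : k < N) : Φ z B N (X ^ k) = pt z B k := by
  unfold Φ
  rw [Finset.sum_eq_single_of_mem k (Finset.mem_range.2 hk), coeff_X_pow_self]
  · push_cast; ring
  · intro b _ hb
    rw [coeff_X_pow, if_neg hb]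
    push_cast; ring

theorem Φ_base (z : ℂ) (B N : ℕ) {k : ℕ} (hk : k + 1 < N) :
    Φ z B N (X ^ k * (X - 1)) = pt z B (k + 1) - pt z B k := by
  rw [mul_sub, mul_one, ← pow_succ, Φ_sub, Φ_pow z B N hk, Φ_pow z B N (by omega)]

theorem norm_pt {z : ℂ} (hz : ‖z‖ = 1) (B k : ℕ) : ‖pt z B k‖ = lam k := by
  unfold pt
  rw [norm_mul, norm_zpow, hz, one_zpow, mul_one]
  unfold lam
  split_ifs <;> simp

theorem norm_base {z : ℂ} (hz : ‖z‖ = 1) (B k : ℕ) :
    ‖pt z B (k + 1) - pt z B k‖ = ‖z ^ ((B : ℤ) ^ ((w k : L) : ℕ)) - 2‖ := by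
  have hz0 : z ≠ 0 := by
    rintro rfl
    rw [norm_zero] at hz
    exact zero_ne_one hz
  have e : pt z B (k + 1) - pt z B k =
      z ^ (E B k) * ((lam (k + 1) : ℂ) * z ^ ((B : ℤ) ^ ((w k : L) : ℕ)) - lam k) := by
    unfold pt
    rw [show E B (k + 1) = E B k + (B : ℤ) ^ ((w k : L) : ℕ) by rw [← E_succ]; ring,
      zpow_add₀ hz0]
    ring
  rw [e, norm_mul, norm_zpow, hz, one_zpow, one_mul]
  set y := z ^ ((B : ℤ) ^ ((w k : L) : ℕ)) with hy
  have hny : ‖y‖ = 1 := by rw [hy, norm_zpow, hz, one_zpow]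
  unfold lam
  rcases Nat.mod_two_eq_zero_or_one k with h | h
  · rw [if_neg (by omega), if_pos h]
    push_cast
    have e1 : (2 * y - 1) = -(y * (starRingEnd ℂ) (y - 2)) := by
      rw [map_sub, map_ofNat, mul_sub, Complex.mul_conj', hny]
      simp
      ring
    rw [e1, norm_neg, norm_mul, hny, one_mul, Complex.norm_conj]
  · rw [if_pos (by omega), if_neg (by omega)]
    push_cast
    rw [one_mul]

theorem norm_al {z : ℂ} (hz : ‖z‖ = 1) (B N : ℕ) {δ : ℤ[X]} (h : Al δ) (hN : δ.natDegree < N) :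
    ‖Φ z B N δ‖ ∈ ({1, 2} ∪ Set.range fun i : Fin 10 => ‖z ^ ((B : ℤ) ^ (i : ℕ)) - 2‖ : Set ℝ) := by
  have hX : ((X : ℤ[X]) - 1).natDegree = 1 := by
    have := natDegree_X_sub_C (1 : ℤ)
    rwa [C_1] at this
  have hXm : ((X : ℤ[X]) - 1).Monic := by
    have := monic_X_sub_C (1 : ℤ)
    rwa [C_1] at this
  have hdeg : ∀ k : ℕ, ((X : ℤ[X]) ^ k * (X - 1)).natDegree = k + 1 := by
    intro k
    rw [(monic_X_pow k).natDegree_mul hXm, natDegree_X_pow, hX]
  have hlam : ∀ k, (lam k : ℝ) ∈ ({1, 2} : Set ℝ) := by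
    intro k
    unfold lam
    split_ifs <;> simp
  obtain ⟨k, rfl | rfl | rfl | rfl⟩ := h
  · left
    rw [natDegree_X_pow] at hN
    rw [Φ_pow z B N hN, norm_pt hz]
    exact hlam k
  · left
    rw [natDegree_neg, natDegree_X_pow] at hN
    rw [Φ_neg, norm_neg, Φ_pow z B N hN, norm_pt hz]
    exact hlam k
  · right
    rw [hdeg] at hN
    rw [Φ_base z B N hN, norm_base hz]
    exact ⟨w k, rfl⟩
  · right
    rw [natDegree_neg, hdeg] at hN
    rw [Φ_neg, norm_neg, Φ_base z B N hN, norm_base hz]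
    exact ⟨w k, rfl⟩

section

variable {z : ℂ} {M B : ℕ} {Q : ℤ[X]}

theorem Φ_eq (z : ℂ) (M B : ℕ) (Q : ℤ[X]) :
    Φ z B M Q = ∑ k ∈ Finset.range M, ((Q.coeff k * lam k : ℤ) : ℂ) * z ^ (E B k) := by
  unfold Φ pt
  refine Finset.sum_congr rfl fun k _ => ?_
  push_cast
  ring

theorem coeff_of_U (hB : 0 < B) {k : ℕ} (hk : k < M)
    (h : U M (E B) (fun k => Q.coeff k * lam k) (E B k) = 0) : Q.coeff k = 0 := by
  rw [U_eq (E_lt hB) hk] at h
  exact (mul_eq_zero.1 h).resolve_right (lam_ne k)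

theorem Φ_inj (hz : ‖z‖ = 1) (htr : Transcendental ℤ z) (hB : 0 < B) (hQ : Q.natDegree < M)
    (h : Φ z B M Q = 0) : Q = 0 := by
  rw [Φ_eq] at h
  ext k
  rw [coeff_zero]
  rcases lt_or_ge k M with hk | hk
  · have := zpow_indep hz htr (Finset.range M) (fun k => Q.coeff k * lam k) (E B) h (E B k)
    exact coeff_of_U hB hk this
  · exact coeff_eq_zero_of_natDegree_lt (lt_of_lt_of_le hQ hk)

/-- The set of exponents. -/
def Exps (B M : ℕ) : Set ℤ := {x | ∃ k < M, E B k = x}

theorem exps_finite (B M : ℕ) : (Exps B M).Finite := by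
  refine (Set.Finite.image (E B) (Set.finite_Iio M)).subset ?_
  rintro x ⟨k, hk, rfl⟩
  exact ⟨k, hk, rfl⟩

theorem exps_ap (hB : 2 * M < B) : ∀ x ∈ Exps B M, ∀ y ∈ Exps B M, ∀ z ∈ Exps B M,
    x < y → y < z → x + z ≠ 2 * y := by
  rintro _ ⟨i, hi, rfl⟩ _ ⟨j, hj, rfl⟩ _ ⟨k, hk, rfl⟩ h1 h2
  have hmono := E_lt (show 0 < B by omega)
  exact E_no_ap hB (hmono.lt_iff_lt.1 h1) (hmono.lt_iff_lt.1 h2) hk.le

/-- A real multiple of an allowed difference is an integral multiple. -/
theorem int_unit (hz : ‖z‖ = 1) (htr : Transcendental ℤ z) (hB : 2 * M < B) {j : ℕ} (hj : j < M)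
    {t : ℝ} (h : Φ z B M Q = t * pt z B j) : ∃ c : ℤ, (c : ℝ) = t := by
  have hB0 : 0 < B := by omega
  have hz0 : z ≠ 0 := by
    rintro rfl
    rw [norm_zero] at hz
    exact zero_ne_one hz
  have h' := h
  rw [Φ_eq] at h'
  have hr := rel hz htr (a := E B j) (b := 0) (α := lam j) (β := 0) (t := t)
    (e := E B) (u := fun k => Q.coeff k * lam k) (N := M) (by rw [h']; unfold pt; push_cast; ring)
  have hU := func_unit (exps_ap hB) (U := U M (E B) (fun k => Q.coeff k * lam k))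
    (fun x hx => U_ne hx) (a := E B j) ⟨j, hj, rfl⟩ (by
      intro m
      have h1 := hr m
      have h2 : lam j * (U M (E B) (fun k => Q.coeff k * lam k) (m + E B j) -
        U M (E B) (fun k => Q.coeff k * lam k) (E B j - m)) = 0 := by linarith
      exact sub_eq_zero.1 ((mul_eq_zero.1 h2).resolve_left (lam_ne j)))
  refine ⟨Q.coeff j, ?_⟩
  have e : Φ z B M Q = (Q.coeff j : ℂ) * pt z B j := by
    unfold Φ
    rw [Finset.sum_eq_single_of_mem j (Finset.mem_range.2 hj)]
    intro k hk hkj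
    rw [coeff_of_U hB0 (Finset.mem_range.1 hk) (hU _ fun h => hkj ((E_lt hB0).injective h))]
    simp
  have hne : pt z B j ≠ 0 := by
    unfold pt
    exact mul_ne_zero (by exact_mod_cast lam_ne j) (zpow_ne_zero _ hz0)
  rw [e] at h
  have := mul_right_cancel₀ hne h
  exact_mod_cast this

theorem int_base (hz : ‖z‖ = 1) (htr : Transcendental ℤ z) (hB : 2 * M < B) {j : ℕ}
    (hj : j + 1 < M) {t : ℝ} (h : Φ z B M Q = t * (pt z B (j + 1) - pt z B j)) :
    ∃ c : ℤ, (c : ℝ) = t := by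
  have hB0 : 0 < B := by omega
  have h' := h
  rw [Φ_eq] at h'
  have hr := rel hz htr (a := E B j) (b := E B (j + 1)) (α := -lam j) (β := lam (j + 1)) (t := t)
    (e := E B) (u := fun k => Q.coeff k * lam k) (N := M) (by rw [h']; unfold pt; push_cast; ring)
  obtain ⟨hU, hab⟩ := func_base (exps_finite B M) (exps_ap hB)
    (U := U M (E B) (fun k => Q.coeff k * lam k))
    (fun x hx => U_ne hx) (a := E B j) (b := E B (j + 1)) ⟨j, by omega, rfl⟩ ⟨j + 1, hj, rfl⟩
    (E_lt hB0 (Nat.lt_succ_self j)) (by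
      rintro _ ⟨k, hk, rfl⟩ hlt
      exact (E_lt hB0).monotone (Nat.succ_le_of_lt ((E_lt hB0).lt_iff_lt.1 hlt)))
    (lam_ne j) (lam_ne (j + 1)) (lam_sq j) (by intro m; linarith [hr m])
  rw [U_eq (E_lt hB0) hj, U_eq (E_lt hB0) (by omega)] at hab
  have hc : Q.coeff j = -Q.coeff (j + 1) := by
    have h1 : (lam j * lam (j + 1)) * (Q.coeff j + Q.coeff (j + 1)) = 0 := by
      linear_combination hab
    have h2 := (mul_eq_zero.1 h1).resolve_left (mul_ne_zero (lam_ne j) (lam_ne (j + 1)))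
    linarith
  refine ⟨Q.coeff (j + 1), ?_⟩
  have e : Φ z B M Q = (Q.coeff (j + 1) : ℂ) * (pt z B (j + 1) - pt z B j) := by
    unfold Φ
    rw [Finset.sum_eq_add_of_mem j (j + 1) (Finset.mem_range.2 (by omega))
      (Finset.mem_range.2 hj) (by omega), hc]
    · push_cast
      ring
    · rintro k hk ⟨h1, h2⟩
      rw [coeff_of_U hB0 (Finset.mem_range.1 hk) (hU _ (fun h => h1 ((E_lt hB0).injective h))
        (fun h => h2 ((E_lt hB0).injective h)))]
      simp
  have hne : pt z B (j + 1) - pt z B j ≠ 0 := by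
    intro h0
    have h1 : Φ z B M (X ^ j * (X - 1)) = 0 := by rw [Φ_base z B M hj, h0]
    have h2 := Φ_inj hz htr hB0 (Q := X ^ j * (X - 1)) ?_ h1
    · rcases mul_eq_zero.1 h2 with h3 | h3
      · exact pow_ne_zero _ X_ne_zero h3
      · exact X_sub_one_ne h3
    · have hX : ((X : ℤ[X]) - 1).natDegree = 1 := by
        have := natDegree_X_sub_C (1 : ℤ)
        rwa [C_1] at this
      have hXm : ((X : ℤ[X]) - 1).Monic := by
        have := monic_X_sub_C (1 : ℤ)
        rwa [C_1] at this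
      rw [(monic_X_pow j).natDegree_mul hXm, natDegree_X_pow, hX]
      exact hj
  rw [e] at h
  have := mul_right_cancel₀ hne h
  exact_mod_cast this

/-- A vertex cannot divide an edge in a ratio different from `0` and `1`. -/
theorem int_al (hz : ‖z‖ = 1) (htr : Transcendental ℤ z) (hB : 2 * M < B) {δ : ℤ[X]} (hδ : Al δ)
    (hM : δ.natDegree < M) {t : ℝ} (h : Φ z B M Q = t * Φ z B M δ) : ∃ c : ℤ, (c : ℝ) = t := by
  have hX : ((X : ℤ[X]) - 1).natDegree = 1 := by
    have := natDegree_X_sub_C (1 : ℤ)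
    rwa [C_1] at this
  have hXm : ((X : ℤ[X]) - 1).Monic := by
    have := monic_X_sub_C (1 : ℤ)
    rwa [C_1] at this
  have hdeg : ∀ k : ℕ, ((X : ℤ[X]) ^ k * (X - 1)).natDegree = k + 1 := by
    intro k
    rw [(monic_X_pow k).natDegree_mul hXm, natDegree_X_pow, hX]
  obtain ⟨k, rfl | rfl | rfl | rfl⟩ := hδ
  · rw [natDegree_X_pow] at hM
    rw [Φ_pow z B M hM] at h
    exact int_unit hz htr hB hM h
  · rw [natDegree_neg, natDegree_X_pow] at hM
    rw [Φ_neg, Φ_pow z B M hM] at h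
    obtain ⟨c, hc⟩ := int_unit (t := -t) hz htr hB hM (by rw [h]; push_cast; ring)
    exact ⟨-c, by push_cast; linarith⟩
  · rw [hdeg] at hM
    rw [Φ_base z B M hM] at h
    exact int_base hz htr hB hM h
  · rw [natDegree_neg, hdeg] at hM
    rw [Φ_neg, Φ_base z B M hM] at h
    obtain ⟨c, hc⟩ := int_base (t := -t) hz htr hB hM (by rw [h]; push_cast; ring)
    exact ⟨-c, by push_cast; linarith⟩

end

/-- A drawing with at most twelve edge lengths. -/
theorem exists_drawing {V : Type} [Fintype V] {G : SimpleGraph V} (hG : Outerplanar G) :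
    ∃ p : V → Plane, IsDrawing G p ∧ (edgeLengths G p).encard ≤ 12 := by
  classical
  obtain ⟨σ, hσ, hcr⟩ := hG
  obtain ⟨z, hz, htr⟩ := exists_transcendental
  set Ed : ℕ → ℕ → Prop := fun a b => ∃ u v, σ u = a ∧ σ v = b ∧ G.Adj u v with hEdef
  have hE : NonCross Ed := by
    rintro a b c d hab hbc hcd ⟨u, v, rfl, rfl, huv⟩ ⟨u', v', rfl, rfl, huv'⟩
    exact hcr u u' v v' hab hbc hcd ⟨huv, huv'⟩
  obtain ⟨N, hN⟩ : ∃ N, ∀ v, σ v ≤ N := by
    refine ⟨Finset.univ.sup σ, fun v => Finset.le_sup (Finset.mem_univ v)⟩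
  obtain ⟨f, hf1, hf2⟩ := exists_poly_drawing hE N
  obtain ⟨M, hM⟩ : ∃ M, ∀ v : V, (f (σ v)).natDegree < M := by
    refine ⟨Finset.univ.sup (fun v => (f (σ v)).natDegree) + 1, fun v => Nat.lt_succ_of_le ?_⟩
    exact Finset.le_sup (f := fun v => (f (σ v)).natDegree) (Finset.mem_univ v)
  have hMsub : ∀ u v : V, (f (σ v) - f (σ u)).natDegree < M := fun u v =>
    lt_of_le_of_lt (natDegree_sub_le _ _) (max_lt (hM v) (hM u))
  have hal : ∀ u v : V, G.Adj u v → Al (f (σ v) - f (σ u)) := by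
    intro u v huv
    have hne : σ u ≠ σ v := fun h => huv.ne (hσ h)
    rcases lt_or_gt_of_ne hne with h | h
    · exact hf2 _ _ h (hN v) ⟨u, v, rfl, rfl, huv⟩
    · have := (hf2 _ _ h (hN u) ⟨v, u, rfl, rfl, huv.symm⟩).neg
      rwa [neg_sub] at this
  set B := 2 * M + 1 with hBdef
  have hB : 2 * M < B := by omega
  have hB0 : 0 < B := by omega
  let e := Complex.orthonormalBasisOneI.repr
  set q : V → ℂ := fun v => Φ z B M (f (σ v)) with hq
  refine ⟨fun v => e (q v), ⟨?_, ?_⟩, ?_⟩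
  · intro u v h
    have h1 : q u = q v := e.injective h
    have h2 : Φ z B M (f (σ u) - f (σ v)) = 0 := by
      rw [Φ_sub]
      exact sub_eq_zero.2 h1
    have h3 := Φ_inj hz htr hB0 (hMsub v u) h2
    exact hσ (hf1 _ _ (hN u) (hN v) (sub_eq_zero.1 h3))
  · rintro u v x huv ⟨a, b, ha, hb, hab, h⟩
    simp only [← map_smul, ← map_add] at h
    have h1 : a • q u + b • q v = q x := e.injective h
    rw [Complex.real_smul, Complex.real_smul] at h1
    have h2 : Φ z B M (f (σ x) - f (σ u)) = (b : ℝ) * Φ z B M (f (σ v) - f (σ u)) := by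
      rw [Φ_sub, Φ_sub]
      have ha' : (a : ℂ) = 1 - b := by
        have : a = 1 - b := by linarith
        rw [this]
        push_cast
        ring
      show q x - q u = b * (q v - q u)
      rw [← h1, ha']
      ring
    obtain ⟨c, hc⟩ := int_al hz htr hB (hal u v huv) (hMsub u v) h2
    have h3 : (0 : ℝ) < c := hc ▸ hb
    have h4 : (c : ℝ) < 1 := by rw [hc]; linarith
    have h5 : 0 < c := by exact_mod_cast h3
    have h6 : c < 1 := by exact_mod_cast h4
    omega
  · have hsub : edgeLengths G (fun v => e (q v)) ⊆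
        {1, 2} ∪ Set.range fun i : Fin 10 => ‖z ^ ((B : ℤ) ^ (i : ℕ)) - 2‖ := by
      rintro l ⟨u, v, huv, rfl⟩
      rw [LinearIsometryEquiv.dist_map, dist_comm, dist_eq_norm, hq, ← Φ_sub]
      exact norm_al hz B M (hal u v huv) (hMsub u v)
    refine (Set.encard_le_encard hsub).trans ((Set.encard_union_le _ _).trans ?_)
    have h1 : ({1, 2} : Set ℝ).encard ≤ 2 := by
      refine (Set.encard_insert_le _ _).trans ?_
      rw [Set.encard_singleton]
      norm_num
    have h2 : (Set.range fun i : Fin 10 => ‖z ^ ((B : ℤ) ^ (i : ℕ)) - 2‖).encard ≤ 10 := by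
      rw [← Set.image_univ]
      refine (Set.encard_image_le _ _).trans ?_
      rw [Set.encard_univ]
      simp
    calc _ ≤ (2 : ℕ∞) + 10 := add_le_add h1 h2
      _ = 12 := by norm_num

/-- **Q1: yes.** There is an absolute constant `C` (namely `C = 12`) such that every outerplanar
graph `G` has `dn(G) ≤ C`; in fact `G` has a drawing with at most `C` edge lengths. -/
theorem result : ∃ C : ℕ, C = 12 ∧ ∀ (V : Type) [Fintype V] (G : SimpleGraph V), Outerplanar G →
    dn G ≤ C ∧ ∃ p : V → Plane, IsDrawing G p ∧ (edgeLengths G p).encard ≤ C := by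
  refine ⟨12, rfl, ?_⟩
  intro V _ G hG
  have h := exists_drawing hG
  exact ⟨Nat.sInf_le h, h⟩

end Pool.Agent.Results.MP_4dd93e_co.BoundedDistance
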